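import Pool.Agent.LibHag.Five

/-!
# Spiders on six terminals

A spanning spider centred at `0` is given by its parent function. The multiset of its edges is
encoded by a number in base `32`.
-/

set_option autoImplicit false

open Finset

namespace Pool.Agent.Hag.Six

abbrev P := Fin 6 → Fin 6

/-- Parent functions of the spanning spiders centred at `0`. -/
structure Sp (p : P) : Prop where
  zero : p 0 = 0
  inj : ∀ i j, p i = p j → p i = 0 ∨ i = j
  acyc : ∀ i, p (p (p (p (p i)))) = 0

instance (p : P) : Decidable (Sp p) :=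
  decidable_of_iff (p 0 = 0 ∧ (∀ i j, p i = p j → p i = 0 ∨ i = j) ∧
    ∀ i, p (p (p (p (p i)))) = 0) ⟨fun h => ⟨h.1, h.2.1, h.2.2⟩, fun h => ⟨h.zero, h.inj, h.acyc⟩⟩

theorem Sp.ne {p : P} (h : Sp p) {i : Fin 6} (hi : i ≠ 0) : i ≠ p i := by
  intro e
  have := h.acyc i
  rw [← e, ← e, ← e, ← e, ← e] at this
  exact hi this

/-- The edges of a spider. -/
def edges (p : P) : Multiset (Sym2 (Fin 6)) := ∑ i : Fin 5, {s(i.succ, p i.succ)}

/-- The number of legs. -/
def legs (p : P) : ℕ := ∑ i : Fin 5, if p i.succ = 0 then 1 else 0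

/-- The excess of a spider. -/
def ex (p : P) : ℕ := legs p - 2

/-- All edges of a family of spiders. -/
def tot (L : Multiset P) : Multiset (Sym2 (Fin 6)) := (L.map edges).sum

/-- Total excess. -/
def exs (L : Multiset P) : ℕ := (L.map ex).sum

theorem tot_add (L L' : Multiset P) : tot (L + L') = tot L + tot L' := by
  simp [tot]

theorem exs_add (L L' : Multiset P) : exs (L + L') = exs L + exs L' := by
  simp [exs]

theorem tot_cons (p : P) (L : Multiset P) : tot (p ::ₘ L) = edges p + tot L := by
  simp [tot]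

theorem exs_cons (p : P) (L : Multiset P) : exs (p ::ₘ L) = ex p + exs L := by
  simp [exs]

theorem tot_zero : tot 0 = 0 := by simp [tot]

theorem exs_zero : exs 0 = 0 := by simp [exs]

theorem card_edges (p : P) : (edges p).card = 5 := by
  simp [edges]

theorem card_tot (L : Multiset P) : (tot L).card = 5 * L.card := by
  induction L using Multiset.induction_on with
  | empty => simp [tot_zero]
  | cons p L ih => rw [tot_cons, Multiset.card_add, card_edges, ih, Multiset.card_cons]; ring

theorem mem_edges {p : P} {f : Sym2 (Fin 6)} :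
    f ∈ edges p ↔ ∃ i : Fin 5, f = s(i.succ, p i.succ) := by
  simp [edges, Multiset.mem_sum]

theorem edges_loopless {p : P} (h : Sp p) : ∀ f ∈ edges p, ¬ f.IsDiag := by
  intro f hf
  rw [mem_edges] at hf
  obtain ⟨i, rfl⟩ := hf
  rw [Sym2.mk_isDiag_iff]
  exact h.ne (Fin.succ_ne_zero i)

theorem tot_loopless {L : Multiset P} (h : ∀ p ∈ L, Sp p) : ∀ f ∈ tot L, ¬ f.IsDiag := by
  induction L using Multiset.induction_on with
  | empty => simp [tot_zero]
  | cons p L ih =>
    intro f hf
    rw [tot_cons, Multiset.mem_add] at hf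
    rcases hf with hf | hf
    · exact edges_loopless (h p (Multiset.mem_cons_self _ _)) f hf
    · exact ih (fun q hq => h q (Multiset.mem_cons_of_mem hq)) f hf

/-! ## The code of a multiset of edges -/

/-- Exponents of the vertices. -/
def X (a : Fin 6) : ℕ := (0xC74210 >>> (4 * a.val)) % 16

/-- Vertex codes. -/
def F (a : ℕ) : ℕ := (2462625387274654950767440010237561754095776841647154983939564343393175437322536775866164373606131631790624002277377 >>> (64 * a)) % 2 ^ 64

theorem F_eq : ∀ a : Fin 6, F a.val = 32 ^ X a := by decide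

/-- Edge codes. -/
def ce : Sym2 (Fin 6) → ℕ := Sym2.lift ⟨fun a b => F a.val * F b.val, fun _ _ => mul_comm _ _⟩

def idx : Sym2 (Fin 6) → ℕ := Sym2.lift ⟨fun a b => X a + X b, fun _ _ => add_comm _ _⟩

theorem ce_mk (a b : Fin 6) : ce s(a, b) = F a.val * F b.val := rfl

theorem ce_eq (e : Sym2 (Fin 6)) : ce e = 32 ^ idx e := by
  induction e with
  | _ a b =>
    change F a.val * F b.val = 32 ^ (X a + X b)
    rw [F_eq, F_eq, pow_add]

theorem idx_lt (e : Sym2 (Fin 6)) : idx e < 25 := by
  revert e
  decide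

theorem idx_lt' (e : Sym2 (Fin 6)) (he : ¬ e.IsDiag) : idx e ≤ 19 := by
  revert e
  decide

theorem idx_inj (e e' : Sym2 (Fin 6)) (he : ¬ e.IsDiag) (he' : ¬ e'.IsDiag)
    (h : idx e = idx e') : e = e' := by
  revert e e'
  decide +kernel

def code (M : Multiset (Sym2 (Fin 6))) : ℕ := (M.map ce).sum

theorem code_add (M M' : Multiset (Sym2 (Fin 6))) : code (M + M') = code M + code M' := by
  simp [code]

theorem code_zero : code 0 = 0 := by simp [code]

theorem code_singleton (a b : Fin 6) : code {s(a, b)} = F a.val * F b.val := by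
  simp [code, ce_mk]

theorem code_eq_sum (M : Multiset (Sym2 (Fin 6))) :
    code M = ∑ i ∈ range 25, (M.map idx).count i * 32 ^ i := by
  induction M using Multiset.induction_on with
  | empty => simp [code]
  | cons e M ih =>
    have h1 : code (e ::ₘ M) = ce e + code M := by simp [code]
    rw [h1, ih, Multiset.map_cons, ce_eq]
    have h2 : ∀ i ∈ range 25, (idx e ::ₘ M.map idx).count i * 32 ^ i =
        (if i = idx e then 32 ^ i else 0) + (M.map idx).count i * 32 ^ i := by
      intro i _
      rw [Multiset.count_cons]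
      split_ifs <;> ring
    rw [Finset.sum_congr rfl h2, Finset.sum_add_distrib, Finset.sum_ite_eq']
    rw [if_pos (Finset.mem_range.2 (idx_lt e))]

theorem digits_inj (b : ℕ) (hb : 0 < b) : ∀ (n : ℕ) (f g : ℕ → ℕ), (∀ i, f i < b) →
    (∀ i, g i < b) → ∑ i ∈ range n, f i * b ^ i = ∑ i ∈ range n, g i * b ^ i →
    ∀ i < n, f i = g i := by
  intro n
  induction n with
  | zero => intro f g _ _ _ i hi; omega
  | succ n ih =>
    intro f g hf hg h
    rw [Finset.sum_range_succ', Finset.sum_range_succ'] at h
    have e1 : ∀ F : ℕ → ℕ, ∑ i ∈ range n, F (i + 1) * b ^ (i + 1) =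
        b * ∑ i ∈ range n, F (i + 1) * b ^ i := by
      intro F
      rw [Finset.mul_sum]
      refine Finset.sum_congr rfl fun i _ => ?_
      ring
    rw [e1, e1, pow_zero, mul_one, mul_one] at h
    have h0 : f 0 = g 0 := by
      have := congrArg (· % b) h
      simp only [Nat.mul_add_mod, Nat.mod_eq_of_lt (hf 0), Nat.mod_eq_of_lt (hg 0)] at this
      exact this
    rw [h0, Nat.add_right_cancel_iff] at h
    have h2 := Nat.eq_of_mul_eq_mul_left hb h
    intro i hi
    rcases i with _ | i
    · exact h0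
    · exact ih (fun i => f (i + 1)) (fun i => g (i + 1)) (fun i => hf _) (fun i => hg _) h2 i
        (by omega)

theorem code_inj {M M' : Multiset (Sym2 (Fin 6))} (hM : ∀ e ∈ M, ¬ e.IsDiag)
    (hM' : ∀ e ∈ M', ¬ e.IsDiag) (hc : M.card < 32) (hc' : M'.card < 32)
    (h : code M = code M') : M = M' := by
  rw [code_eq_sum, code_eq_sum] at h
  have h1 := digits_inj 32 (by norm_num) 25 (fun i => (M.map idx).count i)
    (fun i => (M'.map idx).count i)
    (fun i => lt_of_le_of_lt (Multiset.count_le_card _ _) (by rwa [Multiset.card_map]))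
    (fun i => lt_of_le_of_lt (Multiset.count_le_card _ _) (by rwa [Multiset.card_map])) h
  have key : ∀ N : Multiset (Sym2 (Fin 6)), (∀ e ∈ N, ¬ e.IsDiag) → ∀ e : Sym2 (Fin 6),
      ¬ e.IsDiag → N.count e = (N.map idx).count (idx e) := by
    intro N hN e he
    rw [Multiset.count_map, Multiset.count_eq_card_filter_eq]
    refine congrArg Multiset.card (Multiset.filter_congr fun a ha => ?_)
    constructor
    · intro h0; rw [h0]
    · intro hi; exact idx_inj _ _ he (hN a ha) hi
  ext e
  by_cases he : e.IsDiag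
  · rw [Multiset.count_eq_zero_of_notMem (fun h => hM e h he),
      Multiset.count_eq_zero_of_notMem (fun h => hM' e h he)]
  · rw [key M hM e he, key M' hM' e he]
    exact h1 (idx e) (idx_lt e)

theorem code_le (B : ℕ) (hB : ∀ e : Sym2 (Fin 6), ¬ e.IsDiag → ce e ≤ B)
    (N : Multiset (Sym2 (Fin 6))) (hN : ∀ e ∈ N, ¬ e.IsDiag) : code N ≤ N.card * B := by
  induction N using Multiset.induction_on with
  | empty => simp [code]
  | cons e N ih =>
    have h1 : code (e ::ₘ N) = ce e + code N := by simp [code]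
    have h2 := ih (fun x hx => hN x (Multiset.mem_cons_of_mem hx))
    have h3 : ce e ≤ B := hB e (hN e (Multiset.mem_cons_self _ _))
    rw [h1, Multiset.card_cons, add_mul, one_mul, add_comm]
    exact Nat.add_le_add h2 h3

theorem code_lt {M : Multiset (Sym2 (Fin 6))} (hM : ∀ e ∈ M, ¬ e.IsDiag) (hc : M.card < 32) :
    code M < 2 ^ 100 := by
  have h1 := code_le (32 ^ 19) (fun e he => by
    rw [ce_eq]
    exact Nat.pow_le_pow_right (by norm_num) (idx_lt' e he)) M hM
  refine lt_of_le_of_lt h1 (lt_of_lt_of_le (Nat.mul_lt_mul_of_pos_right hc (by positivity)) ?_)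
  rw [show (32 : ℕ) = 2 ^ 5 by norm_num, ← pow_mul, ← pow_add]

theorem code_edges (p : P) : code (edges p) = F 1 * F (p 1).val + F 2 * F (p 2).val +
    F 3 * F (p 3).val + F 4 * F (p 4).val + F 5 * F (p 5).val := by
  rw [edges, Fin.sum_univ_five]
  simp only [code_add]
  rfl

end Pool.Agent.Hag.Six
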