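import Pool.Agent.LibHagSix.Table

/-!
# The checker
-/

set_option autoImplicit false

namespace Pool.Agent.Hag.Six

/-- Evaluate the argument first. -/
def force (c : ℕ) (f : ℕ → Bool) : Bool := Nat.rec (f 0) (fun n _ => f (n + 1)) c

theorem force_eq (c : ℕ) (f : ℕ → Bool) : force c f = f c := by cases c <;> rfl

def wsum : ℕ → ℕ → ℕ
  | 0, _ => 0
  | n + 1, c => look (c % 512) + wsum n (c / 512)

def wfam : ℕ → ℕ → Multiset P
  | 0, _ => 0
  | n + 1, c => par (c % 512) ::ₘ wfam n (c / 512)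

theorem wfam_card (n c : ℕ) : (wfam n c).card = n := by
  induction n generalizing c with
  | zero => rfl
  | succ n ih => rw [wfam, Multiset.card_cons, ih]

theorem wfam_sp (n c : ℕ) : ∀ p ∈ wfam n c, Sp p := by
  induction n generalizing c with
  | zero => intro p hp; simp [wfam] at hp
  | succ n ih =>
    intro p hp
    rw [wfam, Multiset.mem_cons] at hp
    rcases hp with rfl | hp
    · exact sp_par (Nat.mod_lt _ (by norm_num))
    · exact ih _ p hp

theorem wsum_eq (n c : ℕ) : wsum n c = code (tot (wfam n c)) + 2 ^ 100 * exs (wfam n c) := by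
  induction n generalizing c with
  | zero => rw [wsum, wfam, tot_zero, exs_zero, code_zero, Nat.mul_zero]
  | succ n ih =>
    rw [wsum, wfam, tot_cons, exs_cons, code_add, ih, look_eq (Nat.mod_lt _ (by norm_num))]
    ring

def slot (n Xc w ec j a c : ℕ) : Bool :=
  (j == w) || (a == w) ||
    ((wsum n c + ec + F j * F a) % 2 ^ 100 == (Xc + F j * F w + F a * F w) % 2 ^ 100)

theorem F_zero : F 0 = 1 := by decide

theorem slot_sound {n Xc c : ℕ} {X : Multiset (Sym2 (Fin 6))} (hn : n ≤ 4)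
    (hX : ∀ e ∈ X, ¬ e.IsDiag) (hcard : X.card = 5 * n) (hXc : Xc % 2 ^ 100 = code X % 2 ^ 100)
    {w a0 j a : Fin 6} (ha0 : a0 ≠ 0) (hja : j ≠ a) (hw : w ∉ s(j, a))
    (h : slot n Xc w.val (F a0.val) j.val a.val c = true) :
    ∃ W : Multiset P, W.card = n ∧ (∀ p ∈ W, Sp p) ∧
      tot W + {s(0, a0)} + {s(j, a)} = X + pin w s(j, a) := by
  rw [Sym2.mem_iff, not_or] at hw
  have h1 : (j.val == w.val) = false := by
    rw [beq_eq_false_iff_ne]; exact fun h => hw.1 (Fin.ext h.symm)
  have h2 : (a.val == w.val) = false := by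
    rw [beq_eq_false_iff_ne]; exact fun h => hw.2 (Fin.ext h.symm)
  rw [slot, h1, h2, Bool.false_or, Bool.false_or, beq_iff_eq, wsum_eq] at h
  refine ⟨wfam n c, wfam_card n c, wfam_sp n c, ?_⟩
  have hl1 : ∀ e ∈ tot (wfam n c) + {s(0, a0)} + {s(j, a)}, ¬ e.IsDiag := by
    intro e he
    simp only [Multiset.mem_add, Multiset.mem_singleton] at he
    rcases he with (he | rfl) | rfl
    · exact tot_loopless (wfam_sp n c) e he
    · rw [Sym2.mk_isDiag_iff]; exact ha0.symm
    · rw [Sym2.mk_isDiag_iff]; exact hja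
  have hl2 : ∀ e ∈ X + pin w s(j, a), ¬ e.IsDiag := by
    intro e he
    rw [pin_mk] at he
    simp only [Multiset.mem_add, Multiset.insert_eq_cons, Multiset.mem_cons,
      Multiset.mem_singleton] at he
    rcases he with he | rfl | rfl
    · exact hX e he
    · rw [Sym2.mk_isDiag_iff]; exact fun h => hw.1 h.symm
    · rw [Sym2.mk_isDiag_iff]; exact fun h => hw.2 h.symm
  have hc1 : (tot (wfam n c) + {s(0, a0)} + {s(j, a)}).card < 32 := by
    rw [Multiset.card_add, Multiset.card_add, card_tot, wfam_card, Multiset.card_singleton,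
      Multiset.card_singleton]
    omega
  have hc2 : (X + pin w s(j, a)).card < 32 := by
    rw [Multiset.card_add, card_pin, hcard]
    omega
  apply code_inj hl1 hl2 hc1 hc2
  rw [← Nat.mod_eq_of_lt (code_lt hl1 hc1), ← Nat.mod_eq_of_lt (code_lt hl2 hc2)]
  have e1 : code (tot (wfam n c) + {s(0, a0)} + {s(j, a)}) =
      code (tot (wfam n c)) + F a0.val + F j.val * F a.val := by
    rw [code_add, code_add, code_singleton, code_singleton]
    change _ + F 0 * _ + _ = _
    rw [F_zero, one_mul]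
  have e2 : code (X + pin w s(j, a)) = code X + F j.val * F w.val + F a.val * F w.val := by
    rw [code_add, pin_mk, Multiset.insert_eq_cons, ← Multiset.singleton_add, code_add,
      code_singleton, code_singleton, add_assoc]
  have h3 : code (tot (wfam n c)) + 2 ^ 100 * exs (wfam n c) + F a0.val + F j.val * F a.val =
      (code (tot (wfam n c)) + F a0.val + F j.val * F a.val) + 2 ^ 100 * exs (wfam n c) := by ring
  have h4 : (Xc + F j.val * F w.val + F a.val * F w.val) % 2 ^ 100 =
      (code X + F j.val * F w.val + F a.val * F w.val) % 2 ^ 100 := by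
    rw [add_assoc, add_assoc, Nat.add_mod, hXc, ← Nat.add_mod]
  rw [h3, Nat.add_mul_mod_self_left, h4] at h
  rw [e1, e2]
  exact h

def good (n Xc w ec sk d c : ℕ) : Bool :=
  ((sk == 1) || slot n Xc w ec 1 (dg d 1) c) &&
  ((sk == 2) || slot n Xc w ec 2 (dg d 2) (c >>> (9 * n))) &&
  ((sk == 3) || slot n Xc w ec 3 (dg d 3) (c >>> (18 * n))) &&
  ((sk == 4) || slot n Xc w ec 4 (dg d 4) (c >>> (27 * n))) &&
  ((sk == 5) || slot n Xc w ec 5 (dg d 5) (c >>> (36 * n)))

theorem good_slot {n Xc w ec sk d c : ℕ} (h : good n Xc w ec sk d c = true) (i : Fin 5)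
    (hi : i.succ.val ≠ sk) : ∃ c', slot n Xc w ec i.succ.val (dg d i.succ.val) c' = true := by
  simp only [good, Bool.and_eq_true, Bool.or_eq_true, beq_iff_eq] at h
  obtain ⟨⟨⟨⟨h1, h2⟩, h3⟩, h4⟩, h5⟩ := h
  fin_cases i
  · exact ⟨_, h1.resolve_left (fun h => hi h.symm)⟩
  · exact ⟨_, h2.resolve_left (fun h => hi h.symm)⟩
  · exact ⟨_, h3.resolve_left (fun h => hi h.symm)⟩
  · exact ⟨_, h4.resolve_left (fun h => hi h.symm)⟩
  · exact ⟨_, h5.resolve_left (fun h => hi h.symm)⟩

theorem good_sound {n Xc sk d c : ℕ} (hd : d < 512) {X : Multiset (Sym2 (Fin 6))} (hn : n ≤ 4)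
    (hX : ∀ e ∈ X, ¬ e.IsDiag) (hcard : X.card = 5 * n) (hXc : Xc % 2 ^ 100 = code X % 2 ^ 100)
    {w a0 : Fin 6} (ha0 : a0 ≠ 0) (h : good n Xc w.val (F a0.val) sk d c = true) (i : Fin 5)
    (hi : i.succ.val ≠ sk) (hw : w ∉ s(i.succ, par d i.succ)) :
    ∃ W : Multiset P, W.card = n ∧ (∀ p ∈ W, Sp p) ∧
      tot W + {s(0, a0)} + {s(i.succ, par d i.succ)} = X + pin w s(i.succ, par d i.succ) := by
  obtain ⟨c', h'⟩ := good_slot h i hi
  rw [← par_val hd] at h'
  exact slot_sound hn hX hcard hXc ha0 ((sp_par hd).ne (Fin.succ_ne_zero i)) hw h'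

def inc (n Xc c : ℕ) : Bool :=
  (wsum n c % 2 ^ 100 == Xc % 2 ^ 100) && Nat.blt (wsum n c / 2 ^ 100) (Xc / 2 ^ 100)

theorem inc_sound {n Xc c : ℕ} {N : Multiset P} (hn : n ≤ 4) (hN : ∀ p ∈ N, Sp p)
    (hcard : N.card = n) (hXc : Xc = code (tot N) + 2 ^ 100 * exs N) (h : inc n Xc c = true) :
    ∃ W : Multiset P, W.card = n ∧ (∀ p ∈ W, Sp p) ∧ tot W = tot N ∧ exs W < exs N := by
  rw [inc, Bool.and_eq_true, beq_iff_eq, Nat.blt_eq, wsum_eq, hXc, Nat.add_mul_mod_self_left,
    Nat.add_mul_mod_self_left, Nat.add_mul_div_left _ _ (by norm_num),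
    Nat.add_mul_div_left _ _ (by norm_num)] at h
  have hc1 : (tot (wfam n c)).card < 32 := by rw [card_tot, wfam_card]; omega
  have hc2 : (tot N).card < 32 := by rw [card_tot, hcard]; omega
  have hl1 := tot_loopless (wfam_sp n c)
  have hl2 := tot_loopless hN
  rw [Nat.mod_eq_of_lt (code_lt hl1 hc1), Nat.mod_eq_of_lt (code_lt hl2 hc2),
    Nat.div_eq_of_lt (code_lt hl1 hc1), Nat.div_eq_of_lt (code_lt hl2 hc2), zero_add,
    zero_add] at h
  exact ⟨wfam n c, wfam_card n c, wfam_sp n c, code_inj hl1 hl2 hc1 hc2 h.1, h.2⟩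

/-! ## Nodes -/

/-- The total excess is minimal among all decompositions. -/
def Min (L : Multiset P) : Prop :=
  ∀ L' : Multiset P, (∀ p ∈ L', Sp p) → L'.card = L.card → tot L' = tot L → exs L ≤ exs L'

/-- There is a good move. -/
def Move (L : Multiset P) : Prop :=
  ∃ a w : Fin 6, a ≠ 0 ∧ w ≠ 0 ∧ ∃ R, tot L = {s(0, a)} + R ∧ ∀ f ∈ R, w ∉ f →
    ∃ L' : Multiset P, (∀ p ∈ L', Sp p) ∧ L'.card = L.card ∧
      tot L' + {s(0, a)} + {f} = tot L + pin w f

def NodeOK (N : Multiset P) : Prop :=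
  ∀ L : Multiset P, (∀ p ∈ L, Sp p) → Min L → N ≤ L → Move L

def memB : List ℕ → ℕ → Bool
  | [], _ => false
  | x :: l, d => (x == d) || memB l d

theorem memB_spec {l : List ℕ} {d : ℕ} (h : memB l d = true) : d ∈ l := by
  induction l with
  | nil => simp [memB] at h
  | cons x l ih =>
    rw [memB, Bool.or_eq_true, beq_iff_eq] at h
    rcases h with rfl | h
    · simp
    · exact List.mem_cons_of_mem _ (ih h)

def entry (m Nc w ec : ℕ) (ch : List ℕ) (C d : ℕ) : Bool :=
  force ((C >>> ((45 * (m + 1) + 2) * d)) % 2 ^ (45 * (m + 1) + 2)) fun c =>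
    force (Nc + look d) fun Xc =>
      (Nat.beq (c % 4) 0 && memB ch d) || (Nat.beq (c % 4) 1 && inc (m + 1) Xc (c / 4)) ||
        (Nat.beq (c % 4) 2 && good (m + 1) Xc w ec 0 d (c / 4))

theorem entry_sound {m Nc w ec : ℕ} {ch : List ℕ} {C d : ℕ} (h : entry m Nc w ec ch C d = true) :
    d ∈ ch ∨ (∃ c, inc (m + 1) (Nc + look d) c = true) ∨
      ∃ c, good (m + 1) (Nc + look d) w ec 0 d c = true := by
  rw [entry, force_eq, force_eq, Bool.or_eq_true, Bool.or_eq_true, Bool.and_eq_true,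
    Bool.and_eq_true, Bool.and_eq_true] at h
  rcases h with (h | h) | h
  · exact Or.inl (memB_spec h.2)
  · exact Or.inr (Or.inl ⟨_, h.2⟩)
  · exact Or.inr (Or.inr ⟨_, h.2⟩)

def lsum : List (ℕ × ℕ) → ℕ
  | [] => 0
  | x :: l => look x.1 + lsum l

def selfB (m Nc w ec : ℕ) : List (ℕ × ℕ) → Bool
  | [] => true
  | x :: l => Nat.blt x.1 512 && good m Nc w ec 0 x.1 x.2 && selfB m Nc w ec l

def nodeB (w a0 s0 c0 : ℕ) (l : List (ℕ × ℕ)) (ch : List ℕ) (C : ℕ) : Bool :=
  Nat.blt s0 512 && Nat.ble (l.length + 1) 3 && (dg s0 a0 == 0) &&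
    force (look s0 + lsum l) fun Nc =>
      good (l.length + 1) Nc w (F a0) a0 s0 c0 && selfB (l.length + 1) Nc w (F a0) l &&
        allB 501 fun d => entry (l.length + 1) Nc w (F a0) ch C d

def fam (s0 : ℕ) (l : List (ℕ × ℕ)) : Multiset P :=
  par s0 ::ₘ ((l.map (fun x => par x.1) : List P) : Multiset P)

theorem mem_tot {L : Multiset P} {f : Sym2 (Fin 6)} (h : f ∈ tot L) :
    ∃ p ∈ L, f ∈ edges p := by
  induction L using Multiset.induction_on with
  | empty => simp [tot_zero] at h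
  | cons p L ih =>
    rw [tot_cons, Multiset.mem_add] at h
    rcases h with h | h
    · exact ⟨p, Multiset.mem_cons_self _ _, h⟩
    · obtain ⟨q, hq, hf⟩ := ih h
      exact ⟨q, Multiset.mem_cons_of_mem hq, hf⟩

theorem self_spec {m Nc w ec : ℕ} {l : List (ℕ × ℕ)} (h : selfB m Nc w ec l = true) :
    ∀ x ∈ l, x.1 < 512 ∧ good m Nc w ec 0 x.1 x.2 = true := by
  induction l with
  | nil => intro x hx; simp at hx
  | cons y l ih =>
    rw [selfB, Bool.and_eq_true, Bool.and_eq_true, Nat.blt_eq] at h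
    intro x hx
    rw [List.mem_cons] at hx
    rcases hx with rfl | hx
    · exact h.1
    · exact ih h.2 x hx

theorem lsum_eq (l : List (ℕ × ℕ)) (h : ∀ x ∈ l, x.1 < 512) :
    lsum l = code (tot ((l.map (fun x => par x.1) : List P) : Multiset P)) +
      2 ^ 100 * exs ((l.map (fun x => par x.1) : List P) : Multiset P) := by
  induction l with
  | nil =>
    change 0 = code (tot 0) + 2 ^ 100 * exs 0
    rw [tot_zero, exs_zero, code_zero, Nat.mul_zero]
  | cons y l ih =>
    rw [lsum, List.map_cons, ← Multiset.cons_coe, tot_cons, exs_cons, code_add,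
      ih (fun x hx => h x (List.mem_cons_of_mem _ hx)), look_eq (h y List.mem_cons_self)]
    ring

theorem node_sound (w a0 : Fin 6) {s0 c0 : ℕ} {l : List (ℕ × ℕ)} {ch : List ℕ} {C : ℕ}
    (hw0 : w ≠ 0) (ha0 : a0 ≠ 0) (h : nodeB w.val a0.val s0 c0 l ch C = true)
    (hch : ∀ d ∈ ch, NodeOK (par d ::ₘ fam s0 l)) : NodeOK (fam s0 l) := by
  rw [nodeB, force_eq] at h
  simp only [Bool.and_eq_true, Nat.blt_eq, beq_iff_eq, Nat.ble_eq] at h
  obtain ⟨⟨⟨hs0, hlen⟩, hdg⟩, ⟨hg0, hself⟩, hall⟩ := h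
  have hself' := self_spec hself
  have hsum := lsum_eq l (fun x hx => (hself' x hx).1)
  set rest : Multiset P := ((l.map (fun x => par x.1) : List P) : Multiset P) with hrest
  have hfam : fam s0 l = par s0 ::ₘ rest := rfl
  have hcardN : (fam s0 l).card = l.length + 1 := by
    rw [hfam, Multiset.card_cons, hrest, Multiset.coe_card, List.length_map]
  have hNc : look s0 + lsum l = code (tot (fam s0 l)) + 2 ^ 100 * exs (fam s0 l) := by
    rw [hsum, look_eq hs0, hfam, tot_cons, exs_cons, code_add]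
    ring
  rw [hNc] at hg0 hself' hall
  clear hself hsum
  have hspN : ∀ p ∈ fam s0 l, Sp p := by
    intro p hp
    rw [hfam, Multiset.mem_cons] at hp
    rcases hp with rfl | hp
    · exact sp_par hs0
    · rw [hrest, Multiset.mem_coe, List.mem_map] at hp
      obtain ⟨x, hx, rfl⟩ := hp
      exact sp_par (hself' x hx).1
  intro L hL hmin hle
  obtain ⟨L1, rfl⟩ := Multiset.le_iff_exists_add.1 hle
  by_cases hC : ∃ d ∈ ch, par d ∈ L1
  · obtain ⟨d, hd, hdL⟩ := hC
    apply hch d hd _ hL hmin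
    obtain ⟨L2, rfl⟩ := Multiset.exists_cons_of_mem hdL
    rw [Multiset.add_cons, ← Multiset.cons_add]
    exact Multiset.le_add_right _ _
  -- the move
  have hpa : par s0 a0 = 0 := by
    apply Fin.ext
    rw [par_val hs0, hdg]; rfl
  obtain ⟨i0, hi0⟩ := Fin.exists_succ_eq.2 ha0
  have hR0 : edges (par s0) = {s(0, a0)} +
      ∑ i ∈ Finset.univ.erase i0, ({s(i.succ, par s0 i.succ)} : Multiset (Sym2 (Fin 6))) := by
    rw [edges, ← Finset.add_sum_erase _ _ (Finset.mem_univ i0), hi0, hpa, Sym2.eq_swap]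
  have hbuild : ∀ (N L2 W : Multiset P) (f : Sym2 (Fin 6)), (∀ p ∈ N + L2, Sp p) →
      W.card = N.card → (∀ p ∈ W, Sp p) → tot W + {s(0, a0)} + {f} = tot N + pin w f →
      ∃ L' : Multiset P, (∀ p ∈ L', Sp p) ∧ L'.card = (N + L2).card ∧
        tot L' + {s(0, a0)} + {f} = tot (N + L2) + pin w f := by
    intro N L2 W f hs hcW hspW hWt
    refine ⟨W + L2, ?_, ?_, ?_⟩
    · intro p hp
      rw [Multiset.mem_add] at hp
      rcases hp with hp | hp
      · exact hspW p hp
      · exact hs p (Multiset.mem_add.2 (Or.inr hp))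
    · rw [Multiset.card_add, Multiset.card_add, hcW]
    · rw [tot_add, tot_add]
      have : tot W + tot L2 + {s(0, a0)} + {f} = (tot W + {s(0, a0)} + {f}) + tot L2 := by abel
      rw [this, hWt]
      abel
  refine ⟨a0, w, ha0, hw0, (∑ i ∈ Finset.univ.erase i0,
    ({s(i.succ, par s0 i.succ)} : Multiset (Sym2 (Fin 6)))) + tot rest + tot L1, ?_, ?_⟩
  · rw [tot_add, hfam, tot_cons, hR0]
    abel
  · intro f hf hwf
    rw [Multiset.mem_add, Multiset.mem_add] at hf
    rcases hf with (hf | hf) | hf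
    · -- an edge of the first spider
      rw [Multiset.mem_sum] at hf
      obtain ⟨i, hi, hf⟩ := hf
      rw [Multiset.mem_singleton] at hf
      rw [Finset.mem_erase] at hi
      subst hf
      obtain ⟨W, hWc, hWs, hWt⟩ := good_sound hs0 (X := tot (fam s0 l)) (by omega)
        (tot_loopless hspN) (by rw [card_tot, hcardN])
        (by rw [Nat.add_mul_mod_self_left]) ha0 hg0 i (by
          intro h
          apply hi.1
          apply Fin.succ_injective
          rw [hi0]
          exact Fin.ext h) hwf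
      exact hbuild _ L1 W _ hL (by rw [hWc, hcardN]) hWs hWt
    · -- an edge of another spider of the node
      obtain ⟨p, hp, hf⟩ := mem_tot hf
      rw [hrest, Multiset.mem_coe, List.mem_map] at hp
      obtain ⟨x, hx, rfl⟩ := hp
      obtain ⟨i, rfl⟩ := mem_edges.1 hf
      obtain ⟨W, hWc, hWs, hWt⟩ := good_sound (hself' x hx).1 (X := tot (fam s0 l)) (by omega)
        (tot_loopless hspN) (by rw [card_tot, hcardN])
        (by rw [Nat.add_mul_mod_self_left]) ha0 (hself' x hx).2 i (by simp) hwf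
      exact hbuild _ L1 W _ hL (by rw [hWc, hcardN]) hWs hWt
    · -- an edge of a spider outside of the node
      obtain ⟨p, hp, hfp⟩ := mem_tot hf
      clear hf
      obtain ⟨L2, rfl⟩ := Multiset.exists_cons_of_mem hp
      have hspp : Sp p := hL p (by simp)
      obtain ⟨t, ht, rfl⟩ := complete hspp
      have heq : fam s0 l + par t ::ₘ L2 = (par t ::ₘ fam s0 l) + L2 := by
        rw [Multiset.add_cons, Multiset.cons_add]
      have hspN' : ∀ p ∈ par t ::ₘ fam s0 l, Sp p := by
        intro q hq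
        rw [Multiset.mem_cons] at hq
        rcases hq with rfl | hq
        · exact hspp
        · exact hspN q hq
      have hcardN' : (par t ::ₘ fam s0 l).card = l.length + 1 + 1 := by
        rw [Multiset.card_cons, hcardN]
      have hNc' : code (tot (fam s0 l)) + 2 ^ 100 * exs (fam s0 l) + look t =
          code (tot (par t ::ₘ fam s0 l)) + 2 ^ 100 * exs (par t ::ₘ fam s0 l) := by
        rw [look_eq (by omega), tot_cons, exs_cons, code_add]
        ring
      have hent := entry_sound (allB_spec hall t ht)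
      rw [hNc'] at hent
      rcases hent with h0 | ⟨c, h1⟩ | ⟨c, h2⟩
      · exact absurd ⟨t, h0, Multiset.mem_cons_self _ _⟩ hC
      · exfalso
        obtain ⟨W, hWc, hWs, hWt, hWe⟩ := inc_sound (by omega) hspN' hcardN' rfl h1
        have := hmin (W + L2) (by
          intro q hq
          rw [Multiset.mem_add] at hq
          rcases hq with hq | hq
          · exact hWs q hq
          · exact hL q (by rw [heq]; exact Multiset.mem_add.2 (Or.inr hq)))
          (by rw [heq, Multiset.card_add, Multiset.card_add, hWc, hcardN'])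
          (by rw [heq, tot_add, tot_add, hWt])
        rw [heq, exs_add, exs_add] at this
        omega
      · obtain ⟨i, rfl⟩ := mem_edges.1 hfp
        obtain ⟨W, hWc, hWs, hWt⟩ := good_sound (by omega) (X := tot (par t ::ₘ fam s0 l))
          (by omega) (tot_loopless hspN') (by rw [card_tot, hcardN'])
          (by rw [Nat.add_mul_mod_self_left]) ha0 h2 i (by simp) hwf
        rw [heq]
        exact hbuild _ L2 W _ (by rw [← heq]; exact hL) (by rw [hWc, hcardN']) hWs hWt

end Pool.Agent.Hag.Six
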