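import Pool.Agent.LibHagSix.Roots

/-!
# The game on six terminals
-/

set_option autoImplicit false

open Finset

namespace Pool.Agent.Hag.Six

/-! ## Spiders cover -/

theorem cover_edges {p : P} (h : Sp p) (i : Fin 6) : ∃ e ∈ edges p, i ∈ e := by
  by_cases hi : i = 0
  · -- some vertex is joined to `0`
    subst hi
    have : ∃ j : Fin 6, j ≠ 0 ∧ p j = 0 := by
      by_contra hcon
      push Not at hcon
      have h1 := hcon 1 (by decide)
      have h2 := hcon _ h1
      have h3 := hcon _ h2
      have h4 := hcon _ h3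
      have h5 := hcon _ h4
      exact h5 (h.acyc 1)
    obtain ⟨j, hj, hpj⟩ := this
    obtain ⟨i0, rfl⟩ := Fin.exists_succ_eq.2 hj
    exact ⟨s(i0.succ, p i0.succ), mem_edges.2 ⟨i0, rfl⟩, by rw [hpj]; simp⟩
  · obtain ⟨i0, rfl⟩ := Fin.exists_succ_eq.2 hi
    exact ⟨s(i0.succ, p i0.succ), mem_edges.2 ⟨i0, rfl⟩, by simp⟩

theorem avoid_edges {p : P} (h : Sp p) {w : Fin 6} (hw : w ≠ 0) : ∃ e ∈ edges p, w ∉ e := by
  have : ∀ w : Fin 6, ∃ i j : Fin 5, i.succ ≠ w ∧ j.succ ≠ w ∧ i ≠ j := by decide
  obtain ⟨i, j, hi, hj, hij⟩ := this w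
  by_cases h1 : p i.succ = w
  · refine ⟨s(j.succ, p j.succ), mem_edges.2 ⟨j, rfl⟩, ?_⟩
    rw [Sym2.mem_iff, not_or]
    refine ⟨hj.symm, fun h2 => ?_⟩
    rcases h.inj i.succ j.succ (h1.trans h2) with h3 | h3
    · exact hw (h1.symm.trans h3)
    · exact hij (Fin.succ_injective _ h3)
  · refine ⟨s(i.succ, p i.succ), mem_edges.2 ⟨i, rfl⟩, ?_⟩
    rw [Sym2.mem_iff, not_or]
    exact ⟨hi.symm, fun h2 => h1 h2.symm⟩

theorem countP_tot (q : Sym2 (Fin 6) → Prop) [DecidablePred q] {L : Multiset P}
    (hL : ∀ p ∈ L, ∃ e ∈ edges p, q e) : L.card ≤ (tot L).countP q := by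
  induction L using Multiset.induction_on with
  | empty => simp
  | cons p L ih =>
    rw [tot_cons, Multiset.countP_add, Multiset.card_cons]
    have h1 := ih (fun x hx => hL x (Multiset.mem_cons_of_mem hx))
    have h2 : 0 < (edges p).countP q := by
      rw [Multiset.countP_pos]
      exact hL p (Multiset.mem_cons_self _ _)
    omega

theorem rest_mem (q : Sym2 (Fin 6) → Prop) [DecidablePred q] {L : Multiset P}
    (hL : ∀ p ∈ L, ∃ e ∈ edges p, q e) (hk : 2 ≤ L.card) {e : Sym2 (Fin 6)}
    {R : Multiset (Sym2 (Fin 6))} (hR : tot L = {e} + R) : ∃ x ∈ R, q x := by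
  have h1 := countP_tot q hL
  rw [hR, Multiset.countP_add] at h1
  have h2 : Multiset.countP q {e} ≤ 1 := by
    have := Multiset.countP_le_card (p := q) {e}
    simpa using this
  have h3 : 0 < R.countP q := by omega
  rwa [Multiset.countP_pos] at h3

/-! ## Paths -/

def hp (t : ℕ) : Fin 6 → Fin 6 := fun i => Fin.ofNat 6 ((HT >>> (18 * t + 3 * i.val)) % 8)

def pathB (t : ℕ) : Bool := !(Nat.beq (look t / 2 ^ 100) 0) ||
  (decide (∀ i j, hp t i = hp t j → i = j) &&
    (F (hp t 0).val * F (hp t 1).val + F (hp t 1).val * F (hp t 2).val +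
      F (hp t 2).val * F (hp t 3).val + F (hp t 3).val * F (hp t 4).val +
      F (hp t 4).val * F (hp t 5).val == look t))

theorem pathB_all : allB 501 pathB = true := by decide +kernel

theorem path_exists {p : P} (h : Sp p) (hex : ex p = 0) :
    ∃ g : Fin 6 → Fin 6, Function.Injective g ∧ edges p = pathM (n := 5) g := by
  obtain ⟨t, ht, rfl⟩ := complete h
  have hs := allB_spec pathB_all t ht
  rw [pathB, look_div (by omega), hex] at hs
  simp only [Nat.beq_refl, Bool.not_true, Bool.false_or, Bool.and_eq_true, decide_eq_true_eq,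
    beq_iff_eq] at hs
  obtain ⟨hinj, hcode⟩ := hs
  have hinj' : Function.Injective (hp t) := fun i j => hinj i j
  refine ⟨hp t, hinj', ?_⟩
  have hl : ∀ e ∈ pathM (n := 5) (hp t), ¬ e.IsDiag := by
    intro e he
    rw [pathM, Multiset.mem_sum] at he
    obtain ⟨i, _, hi⟩ := he
    rw [Multiset.mem_singleton] at hi
    rw [hi, Sym2.mk_isDiag_iff]
    intro h2
    have := hinj' h2
    exact absurd this (Fin.castSucc_lt_succ).ne
  have hc : (pathM (n := 5) (hp t)).card = 5 := by simp [pathM]
  apply code_inj (edges_loopless h) hl (by rw [card_edges]; norm_num) (by rw [hc]; norm_num)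
  rw [look_eq (by omega), hex, Nat.mul_zero, Nat.add_zero] at hcode
  rw [← hcode, pathM, Fin.sum_univ_five]
  simp only [code_add]
  rfl

variable {U : Type} [DecidableEq U]

theorem map_sum_sym {α β : Type} (h : α → β) {ι : Type} (s : Finset ι)
    (f : ι → Multiset (Sym2 α)) :
    (∑ i ∈ s, f i).map (Sym2.map h) = ∑ i ∈ s, (f i).map (Sym2.map h) :=
  map_sum (Multiset.mapAddMonoidHom (Sym2.map h)) f s

omit [DecidableEq U] in
theorem decomp_tot {A : Finset U} (h : Fin 6 → U) (hinj : Function.Injective h)
    (hA : ∀ i, h i ∈ A) (hsurj : ∀ a ∈ A, ∃ i, h i = a) :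
    ∀ L : Multiset P, (∀ p ∈ L, Sp p) → (∀ p ∈ L, ex p = 0) →
      Decomp A L.card 5 ((tot L).map (Sym2.map h)) := by
  intro L
  induction L using Multiset.induction_on with
  | empty =>
    intro _ _
    rw [decomp_iff]
    exact ⟨fun i => i.elim0, fun i => i.elim0, fun i => i.elim0, fun i => i.elim0, by
      rw [tot_zero]; rfl⟩
  | cons p L ih =>
    intro hL hex
    have h1 := ih (fun q hq => hL q (Multiset.mem_cons_of_mem hq))
      (fun q hq => hex q (Multiset.mem_cons_of_mem hq))
    obtain ⟨g, hg, hpg⟩ := path_exists (hL p (Multiset.mem_cons_self _ _))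
      (hex p (Multiset.mem_cons_self _ _))
    have h2 := Decomp.single (A := A) (n := 5) (h ∘ g) (hinj.comp hg) (fun j => hA _) (by
      intro a ha
      obtain ⟨i, rfl⟩ := hsurj a ha
      obtain ⟨j, rfl⟩ := (Finite.injective_iff_surjective.1 hg) i
      exact ⟨j, rfl⟩) 1
    have h3 : 1 • pathM (h ∘ g) = (edges p).map (Sym2.map h) := by
      rw [one_smul, hpg, pathM, pathM, map_sum_sym]
      rfl
    rw [h3] at h2
    have h4 := h1.add h2
    rw [tot_cons, Multiset.map_add, add_comm, Multiset.card_cons]
    exact h4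

/-! ## The star -/

variable [Fintype U]

theorem star_cover {G : SimpleGraph U} {A : Finset U} {c : ℕ} (hA : Conn G A c) {v : U}
    (hv : v ∈ A) (hc : A.card ≤ c + 1) : ∀ j, j + 1 ≤ A.card →
    ∃ S : Finset U, S ⊆ A.erase v ∧ S.card = j ∧ Real G A (S.val.map (fun x => s(x, v))) := by
  intro j
  induction j with
  | zero => intro _; exact ⟨∅, by simp, rfl, by simpa using real_zero G A⟩
  | succ j ih =>
    intro hj
    obtain ⟨S, hS, hSc, hR⟩ := ih (by omega)
    have hcE : (A.erase v).card = A.card - 1 := Finset.card_erase_of_mem hv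
    have hZne : ((A.erase v) \ S).Nonempty := by
      rw [← Finset.card_pos, Finset.card_sdiff_of_subset hS]
      omega
    rcases pinch (v := v) hA (Finset.Subset.refl A) hR
        (by rw [Multiset.card_map, Finset.card_val, hSc]; omega) hv ((A.erase v) \ S)
        (fun x hx => Finset.mem_of_mem_erase (Finset.mem_sdiff.1 hx).1) (by simp)
        (by
          intro x hx hxv hxZ
          have hxS : x ∈ S := by
            by_contra hcon
            exact hxZ (Finset.mem_sdiff.2 ⟨Finset.mem_erase.2 ⟨hxv, hx⟩, hcon⟩)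
          exact ⟨s(x, v), Multiset.mem_map.2 ⟨x, hxS, rfl⟩, by simp⟩)
        (Or.inl hZne) with ⟨u, w, M0, hu, hw, hM0, _⟩ | ⟨x, hx, hR'⟩
    · exfalso
      have hmem : s(u, w) ∈ S.val.map (fun x => s(x, v)) := by
        rw [hM0]; exact Multiset.mem_cons_self _ _
      rw [Multiset.mem_map] at hmem
      obtain ⟨x, _, hx⟩ := hmem
      have : v ∈ s(u, w) := by rw [← hx]; simp
      rw [Sym2.mem_iff] at this
      rcases this with h | h
      · exact hu h.symm
      · exact hw h.symm
    · rw [Finset.mem_sdiff] at hx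
      refine ⟨insert x S, Finset.insert_subset hx.1 hS, ?_, ?_⟩
      · rw [Finset.card_insert_of_notMem hx.2, hSc]
      · rw [Finset.insert_val_of_notMem hx.2, Multiset.map_cons]
        exact hR'

theorem star_real {G : SimpleGraph U} {A : Finset U} {c : ℕ} (hA : Conn G A c) {v : U}
    (hv : v ∈ A) (N : Multiset U) (hN : ∀ x ∈ N, x ∈ A.erase v) (hc : A.card - 1 + N.card ≤ c) :
    Real G A (((A.erase v).val + N).map (fun x => s(x, v))) := by
  have hcA : 0 < A.card := Finset.card_pos.2 ⟨v, hv⟩
  have hcE : (A.erase v).card = A.card - 1 := Finset.card_erase_of_mem hv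
  induction N using Multiset.induction_on with
  | empty =>
    obtain ⟨S, hS, hSc, hR⟩ := star_cover hA hv (by omega) (A.card - 1) (by omega)
    have : S = A.erase v := Finset.eq_of_subset_of_card_le hS (by omega)
    rw [this] at hR
    simpa using hR
  | cons x N ih =>
    rw [Multiset.card_cons] at hc
    have hR := ih (fun y hy => hN y (Multiset.mem_cons_of_mem hy)) (by omega)
    have hx := hN x (Multiset.mem_cons_self _ _)
    rcases pinch (v := v) hA (Finset.Subset.refl A) hR
        (by rw [Multiset.card_map, Multiset.card_add, Finset.card_val, hcE]; omega) hv {x}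
        (by simpa using Finset.mem_of_mem_erase hx)
        (by simpa using (Finset.ne_of_mem_erase hx).symm)
        (by
          intro y hy hyv _
          exact ⟨s(y, v), Multiset.mem_map.2 ⟨y, Multiset.mem_add.2
            (Or.inl (Finset.mem_erase.2 ⟨hyv, hy⟩)), rfl⟩, by simp⟩)
        (Or.inl (by simp)) with ⟨u, w, M0, hu, hw, hM0, _⟩ | ⟨y, hy, hR'⟩
    · exfalso
      have hmem : s(u, w) ∈ ((A.erase v).val + N).map (fun x => s(x, v)) := by
        rw [hM0]; exact Multiset.mem_cons_self _ _
      rw [Multiset.mem_map] at hmem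
      obtain ⟨x, _, hx⟩ := hmem
      have : v ∈ s(u, w) := by rw [← hx]; simp
      rw [Sym2.mem_iff] at this
      rcases this with h | h
      · exact hu h.symm
      · exact hw h.symm
    · rw [Finset.mem_singleton] at hy
      rw [hy] at hR'
      rw [Multiset.add_cons, Multiset.map_cons]
      exact hR'

/-! ## The strategy -/

/-- Choose a decomposition of minimal total excess. -/
theorem exists_min {L : Multiset P} (hL : ∀ p ∈ L, Sp p) :
    ∃ L' : Multiset P, (∀ p ∈ L', Sp p) ∧ L'.card = L.card ∧ tot L' = tot L ∧ Min L' := by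
  classical
  have hex : ∃ n, ∃ L' : Multiset P, (∀ p ∈ L', Sp p) ∧ L'.card = L.card ∧ tot L' = tot L ∧
      exs L' = n := ⟨_, L, hL, rfl, rfl, rfl⟩
  obtain ⟨L', h1, h2, h3, h4⟩ := Nat.find_spec hex
  refine ⟨L', h1, h2, h3, ?_⟩
  intro L'' g1 g2 g3
  rw [h4]
  exact Nat.find_min' hex ⟨L'', g1, g2.trans h2, g3.trans h3, rfl⟩

theorem play {G : SimpleGraph U} {A : Finset U} {k : ℕ} (hA : Conn G A (5 * k)) (hk : 2 ≤ k)
    (h : Fin 6 → U) (hinj : Function.Injective h)
    (hhA : ∀ i, h i ∈ A) (hsurj : ∀ a ∈ A, ∃ i, h i = a) :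
    ∀ (n : ℕ) (L : Multiset P), (∀ p ∈ L, Sp p) → L.card = k →
      Real G A ((tot L).map (Sym2.map h)) → (tot L).countP (fun e => (0 : Fin 6) ∈ e) = n →
      ∃ M, Real G A M ∧ Decomp A k 5 M := by
  intro n
  induction n using Nat.strong_induction_on with
  | _ n ih =>
    intro L0 hL0 hcard0 hreal0 hn0
    obtain ⟨L, hL, hcard, htot, hmin⟩ := exists_min hL0
    rw [← htot] at hreal0 hn0
    rw [hcard0] at hcard
    by_cases hex : exs L = 0
    · refine ⟨_, hreal0, ?_⟩
      rw [← hcard]
      apply decomp_tot h hinj hhA hsurj L hL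
      intro p hp
      rw [exs, Multiset.sum_eq_zero_iff] at hex
      exact hex _ (Multiset.mem_map_of_mem _ hp)
    · obtain ⟨a, w, ha, hw, R, hR, hmv⟩ := move_exists hL hmin hex
      have hRreal : Real G A (R.map (Sym2.map h)) := by
        apply hreal0.mono
        rw [hR, Multiset.map_add]
        exact Multiset.le_add_left _ _
      have hRcard : R.card + 1 = 5 * k := by
        have := card_tot L
        rw [hR, Multiset.card_add, Multiset.card_singleton, hcard] at this
        omega
      have havoid := rest_mem (fun e => w ∉ e) (fun p hp => avoid_edges (hL p hp) hw)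
        (by omega) hR
      have hmemh : ∀ (i : Fin 6) (e : Sym2 (Fin 6)), h i ∈ Sym2.map h e → i ∈ e := by
        intro i e he
        rw [Sym2.mem_map] at he
        obtain ⟨j, hj, hij⟩ := he
        rwa [hinj hij] at hj
      rcases pinch (v := h w) hA (Finset.Subset.refl A) hRreal
          (by rw [Multiset.card_map]; omega) (hhA w) ∅ (by simp) (by simp)
          (by
            intro x hx _ _
            obtain ⟨i, rfl⟩ := hsurj x hx
            obtain ⟨e, he, hie⟩ := rest_mem (fun e => i ∈ e) (fun p hp => cover_edges (hL p hp) i)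
              (by omega) hR
            exact ⟨_, Multiset.mem_map_of_mem _ he, Sym2.mem_map.2 ⟨i, hie, rfl⟩⟩)
          (by
            right
            obtain ⟨e, he, hwe⟩ := havoid
            exact ⟨_, Multiset.mem_map_of_mem _ he, fun h2 => hwe (hmemh w e h2)⟩)
        with ⟨u, x, M0, hu, hx, hM0, hreal'⟩ | ⟨x, hx, _⟩
      swap
      · simp at hx
      have hmem : s(u, x) ∈ R.map (Sym2.map h) := by
        rw [hM0]; exact Multiset.mem_cons_self _ _
      rw [Multiset.mem_map] at hmem
      obtain ⟨f, hf, hfu⟩ := hmem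
      have hwf : w ∉ f := by
        intro h2
        have h3 : h w ∈ s(u, x) := by rw [← hfu]; exact Sym2.mem_map.2 ⟨w, h2, rfl⟩
        rw [Sym2.mem_iff] at h3
        rcases h3 with h3 | h3
        · exact hu h3.symm
        · exact hx h3.symm
      obtain ⟨L', hL', hcard', htot'⟩ := hmv f hf hwf
      obtain ⟨R0, rfl⟩ := Multiset.exists_cons_of_mem hf
      have htot'' : tot L' = R0 + pin w f := by
        have e1 : tot L' + ({s(0, a)} + {f}) = (R0 + pin w f) + ({s(0, a)} + {f}) := by
          rw [← add_assoc, htot', hR, ← Multiset.singleton_add]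
          abel
        exact add_right_cancel e1
      have hM0' : M0 = R0.map (Sym2.map h) := by
        rw [Multiset.map_cons, hfu] at hM0
        exact ((Multiset.cons_inj_right _).1 hM0).symm
      have hreal'' : Real G A ((tot L').map (Sym2.map h)) := by
        rw [htot'', Multiset.map_add, ← hM0']
        have e2 : (pin w f).map (Sym2.map h) = {s(u, h w), s(x, h w)} := by
          clear htot' htot'' hmv
          induction f with
          | _ i j =>
            rw [Sym2.map_mk] at hfu
            rw [pin_mk]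
            simp only [Multiset.insert_eq_cons, Multiset.map_cons, Multiset.map_singleton,
              Sym2.map_mk]
            rw [Sym2.eq_iff] at hfu
            rcases hfu with ⟨rfl, rfl⟩ | ⟨rfl, rfl⟩
            · rfl
            · rw [← Multiset.singleton_add, ← Multiset.singleton_add, add_comm,
                Multiset.singleton_add, ← Multiset.singleton_add]
        rw [e2]
        have e3 : M0 + {s(u, h w), s(x, h w)} = s(u, h w) ::ₘ s(x, h w) ::ₘ M0 := by
          rw [Multiset.insert_eq_cons, ← Multiset.singleton_add, ← Multiset.singleton_add,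
            ← Multiset.singleton_add]
          abel
        rw [e3]
        exact hreal'
      have hdiag : ¬ f.IsDiag := tot_loopless hL f (by
        rw [hR]; exact Multiset.mem_add.2 (Or.inr (Multiset.mem_cons_self _ _)))
      have hcount : (tot L').countP (fun e => (0 : Fin 6) ∈ e) + 1 = n := by
        have e4 := congrArg (Multiset.countP (fun e => (0 : Fin 6) ∈ e)) htot'
        rw [Multiset.countP_add, Multiset.countP_add, Multiset.countP_add, hn0] at e4
        have e5 : Multiset.countP (fun e => (0 : Fin 6) ∈ e) {s(0, a)} = 1 := by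
          rw [← Multiset.cons_zero, Multiset.countP_cons_of_pos _ (by simp)]
          simp
        have e6 : Multiset.countP (fun e => (0 : Fin 6) ∈ e) (pin w f) =
            Multiset.countP (fun e => (0 : Fin 6) ∈ e) {f} := by
          revert hdiag hw
          generalize w = w
          generalize f = f
          revert w f
          decide +kernel
        rw [e5, e6] at e4
        omega
      exact ih ((tot L').countP (fun e => (0 : Fin 6) ∈ e)) (by omega) L' hL'
        (by rw [hcard', hcard]) hreal'' rfl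

theorem six {G : SimpleGraph U} {A : Finset U} {k : ℕ} (hA : Conn G A (5 * k)) (hk : 2 ≤ k)
    (h6 : A.card = 6) : ∃ M, Real G A M ∧ Decomp A k 5 M := by
  let f := A.equivFinOfCardEq h6
  let h : Fin 6 → U := fun i => (f.symm i).1
  have hinj : Function.Injective h := fun i j hij => f.symm.injective (Subtype.ext hij)
  have hhA : ∀ i, h i ∈ A := fun i => (f.symm i).2
  have hsurj : ∀ a ∈ A, ∃ i, h i = a := fun a ha => ⟨f ⟨a, ha⟩, by simp [h]⟩
  -- the star
  let p0 : P := fun _ => 0
  have hp0 : Sp p0 := ⟨rfl, fun i j _ => Or.inl rfl, fun _ => rfl⟩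
  have hR := star_real hA (hhA 0) ((k - 1) • (A.erase (h 0)).val) (by
    intro x hx
    exact Multiset.mem_of_mem_nsmul hx) (by
    rw [Multiset.card_nsmul, Finset.card_val, Finset.card_erase_of_mem (hhA 0), h6]
    omega)
  have e0 : (A.erase (h 0)).val = (Finset.univ : Finset (Fin 5)).val.map (fun i => h i.succ) := by
    have h1 : A.erase (h 0) = (Finset.univ : Finset (Fin 5)).map
        ⟨fun i => h i.succ, fun i j hij => Fin.succ_injective _ (hinj hij)⟩ := by
      ext x
      rw [Finset.mem_erase, Finset.mem_map]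
      constructor
      · rintro ⟨hx0, hxA⟩
        obtain ⟨i, rfl⟩ := hsurj x hxA
        have hi : i ≠ 0 := fun h => hx0 (by rw [h])
        obtain ⟨j, rfl⟩ := Fin.exists_succ_eq.2 hi
        exact ⟨j, Finset.mem_univ _, rfl⟩
      · rintro ⟨j, _, rfl⟩
        exact ⟨fun h2 => Fin.succ_ne_zero j (hinj h2), hhA _⟩
    rw [h1, Finset.map_val]
    rfl
  have e1 : (edges p0).map (Sym2.map h) = (A.erase (h 0)).val.map (fun x => s(x, h 0)) := by
    rw [e0, Multiset.map_map, map_eq_sum, edges, map_sum_sym]
    rfl
  have e2 : ∀ m : ℕ, (tot (Multiset.replicate m p0)).map (Sym2.map h) =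
      (m • (A.erase (h 0)).val).map (fun x => s(x, h 0)) := by
    intro m
    induction m with
    | zero => simp [tot_zero]
    | succ m ih =>
      rw [Multiset.replicate_succ, tot_cons, Multiset.map_add, ih, e1, succ_nsmul',
        Multiset.map_add]
  have e3 : (A.erase (h 0)).val + (k - 1) • (A.erase (h 0)).val = k • (A.erase (h 0)).val := by
    rw [← succ_nsmul']
    congr 1
    omega
  rw [e3, ← e2] at hR
  exact play hA hk h hinj hhA hsurj _ (Multiset.replicate k p0) (by
    intro p hp
    rw [Multiset.eq_of_mem_replicate hp]; exact hp0) (Multiset.card_replicate _ _) hR rfl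

end Pool.Agent.Hag.Six
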