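import Pool.Agent.LibHagSix.Check

/-!
# Nodes given by lists of indices
-/

set_option autoImplicit false

namespace Pool.Agent.Hag.Six

def ofI (l : List ℕ) : Multiset P := ((l.map par : List P) : Multiset P)

theorem ofI_perm {l l' : List ℕ} (h : l.Perm l') : ofI l = ofI l' :=
  Multiset.coe_eq_coe.2 (h.map par)

theorem _root_.Pool.Agent.Hag.Six.NodeOK.perm {l l' : List ℕ} (h : NodeOK (ofI l))
    (hp : l.Perm l') : NodeOK (ofI l') := by
  rw [← ofI_perm hp]; exact h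

theorem fam_eq (s0 : ℕ) (l : List (ℕ × ℕ)) : fam s0 l = ofI (s0 :: l.map Prod.fst) := by
  rw [fam, ofI, List.map_cons, List.map_map, Multiset.cons_coe]
  rfl

theorem fc {p : ℕ → Prop} {a : ℕ} {l : List ℕ} (h1 : p a) (h2 : ∀ x ∈ l, p x) :
    ∀ x ∈ a :: l, p x :=
  List.forall_mem_cons.2 ⟨h1, h2⟩

theorem node_ofI {w a0 : Fin 6} {s0 c0 : ℕ} {l : List (ℕ × ℕ)} {ch : List ℕ} {C : ℕ}
    (hw0 : w ≠ 0) (ha0 : a0 ≠ 0) (h : nodeB w.val a0.val s0 c0 l ch C = true)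
    (hch : ∀ d ∈ ch, NodeOK (ofI (d :: s0 :: l.map Prod.fst))) :
    NodeOK (ofI (s0 :: l.map Prod.fst)) := by
  rw [← fam_eq]
  apply node_sound w a0 hw0 ha0 h
  intro d hd
  have := hch d hd
  rw [fam_eq]
  exact this

end Pool.Agent.Hag.Six
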