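import Pool.Agent.LibHagSix.Tree

/-!
# Reduction to the roots, and the existence of a good move
-/

set_option autoImplicit false

namespace Pool.Agent.Hag.Six

def sg (t : ℕ) : Fin 6 → Fin 6 := fun i => Fin.ofNat 6 ((SG >>> (20 * t + 3 * i.val)) % 8)

def rt (t : ℕ) : ℕ :=
  match (SG >>> (20 * t + 18)) % 4 with
  | 0 => 0
  | 1 => 1
  | 2 => 11
  | _ => 6

def sigB (t : ℕ) : Bool := Nat.beq (look t / 2 ^ 100) 0 ||
  (decide (∀ i j, sg t i = sg t j → i = j) && decide (sg t 0 = 0) &&
    decide (∀ j, sg t (par t j) = par (rt t) (sg t j)))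

theorem sigB_all : allB 501 sigB = true := by decide +kernel

theorem rt_ok (t : ℕ) : NodeOK (ofI [rt t]) := by
  have h : rt t = 0 ∨ rt t = 1 ∨ rt t = 11 ∨ rt t = 6 := by
    unfold rt
    split <;> simp
  rcases h with h | h | h | h
  · rw [h]; exact n0
  · rw [h]; exact n1
  · rw [h]; exact n6
  · rw [h]; exact n19

theorem look_div {t : ℕ} (ht : t < 512) : look t / 2 ^ 100 = ex (par t) := by
  rw [look_eq ht, Nat.add_mul_div_left _ _ (by norm_num)]
  rw [Nat.div_eq_of_lt (code_lt (edges_loopless (sp_par ht)) (by rw [card_edges]; norm_num)),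
    zero_add]

/-! ## Conjugation by a permutation fixing `0` -/

def conj (σ : Equiv.Perm (Fin 6)) (p : P) : P := fun i => σ (p (σ.symm i))

theorem conj_symm (σ : Equiv.Perm (Fin 6)) (p : P) : conj σ.symm (conj σ p) = p := by
  funext i
  simp [conj]

theorem conj_symm' (σ : Equiv.Perm (Fin 6)) (p : P) : conj σ (conj σ.symm p) = p := by
  funext i
  simp [conj]

theorem symm_zero {σ : Equiv.Perm (Fin 6)} (h : σ 0 = 0) : σ.symm 0 = 0 := by
  rw [Equiv.symm_apply_eq, h]

theorem sp_conj {σ : Equiv.Perm (Fin 6)} (h : σ 0 = 0) {p : P} (hp : Sp p) : Sp (conj σ p) := by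
  constructor
  · simp [conj, symm_zero h, hp.zero, h]
  · intro i j hij
    simp only [conj, EmbeddingLike.apply_eq_iff_eq] at hij
    rcases hp.inj _ _ hij with h1 | h1
    · left; simp [conj, h1, h]
    · right; exact σ.symm.injective h1
  · intro i
    simp only [conj, Equiv.symm_apply_apply, hp.acyc, h]

theorem sum_succ {α : Type} [AddCommMonoid α] [IsRightCancelAdd α] [IsLeftCancelAdd α]
    (σ : Equiv.Perm (Fin 6)) (h : σ 0 = 0)
    (g : Fin 6 → α) : ∑ i : Fin 5, g (σ i.succ) = ∑ i : Fin 5, g i.succ := by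
  have h1 := Equiv.sum_comp σ g
  rw [Fin.sum_univ_succ, Fin.sum_univ_succ (f := g), h] at h1
  exact add_left_cancel h1

theorem edges_conj {σ : Equiv.Perm (Fin 6)} (h : σ 0 = 0) (p : P) :
    edges (conj σ p) = (edges p).map (Sym2.map σ) := by
  have h1 := sum_succ σ h (fun i => ({s(i, conj σ p i)} : Multiset (Sym2 (Fin 6))))
  rw [edges, ← h1, edges]
  have h2 : ∀ f : Multiset (Sym2 (Fin 6)), f.map (Sym2.map σ) =
      Multiset.mapAddMonoidHom (Sym2.map σ) f := fun _ => rfl
  rw [h2, map_sum]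
  refine Finset.sum_congr rfl fun i _ => ?_
  rw [← h2, Multiset.map_singleton, Sym2.map_mk]
  simp [conj]

theorem legs_conj {σ : Equiv.Perm (Fin 6)} (h : σ 0 = 0) (p : P) : legs (conj σ p) = legs p := by
  have h1 := sum_succ σ h (fun i => if conj σ p i = 0 then 1 else 0)
  rw [legs, ← h1, legs]
  refine Finset.sum_congr rfl fun i _ => ?_
  have : conj σ p (σ i.succ) = 0 ↔ p i.succ = 0 := by
    simp only [conj, Equiv.symm_apply_apply]
    constructor
    · intro h2
      apply σ.injective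
      rw [h2, h]
    · intro h2; rw [h2, h]
  simp only [this]

theorem tot_conj {σ : Equiv.Perm (Fin 6)} (h : σ 0 = 0) (L : Multiset P) :
    tot (L.map (conj σ)) = (tot L).map (Sym2.map σ) := by
  induction L using Multiset.induction_on with
  | empty => simp [tot_zero]
  | cons p L ih => rw [Multiset.map_cons, tot_cons, tot_cons, Multiset.map_add, ih, edges_conj h]

theorem exs_conj {σ : Equiv.Perm (Fin 6)} (h : σ 0 = 0) (L : Multiset P) :
    exs (L.map (conj σ)) = exs L := by
  induction L using Multiset.induction_on with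
  | empty => simp
  | cons p L ih => rw [Multiset.map_cons, exs_cons, exs_cons, ih, ex, legs_conj h, ex]

theorem sps_conj {σ : Equiv.Perm (Fin 6)} (h : σ 0 = 0) {L : Multiset P} (hL : ∀ p ∈ L, Sp p) :
    ∀ p ∈ L.map (conj σ), Sp p := by
  intro p hp
  rw [Multiset.mem_map] at hp
  obtain ⟨q, hq, rfl⟩ := hp
  exact sp_conj h (hL q hq)

theorem map_symm_map (σ : Equiv.Perm (Fin 6)) (M : Multiset (Sym2 (Fin 6))) :
    (M.map (Sym2.map σ)).map (Sym2.map σ.symm) = M := by
  rw [Multiset.map_map]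
  conv_rhs => rw [← Multiset.map_id M]
  refine Multiset.map_congr rfl fun e _ => ?_
  induction e with
  | _ a b => simp

theorem map_map_symm (σ : Equiv.Perm (Fin 6)) (M : Multiset (Sym2 (Fin 6))) :
    (M.map (Sym2.map σ.symm)).map (Sym2.map σ) = M := by
  simpa using map_symm_map σ.symm M

theorem min_conj {σ : Equiv.Perm (Fin 6)} (h : σ 0 = 0) {L : Multiset P} (hL : Min L) :
    Min (L.map (conj σ)) := by
  intro L' hL' hcard htot
  rw [exs_conj h]
  have h' := symm_zero h
  have := hL (L'.map (conj σ.symm)) (sps_conj h' hL') (by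
    rw [Multiset.card_map, hcard, Multiset.card_map]) (by
    rw [tot_conj h', htot, tot_conj h, map_symm_map])
  rwa [exs_conj h'] at this

theorem pin_map (σ : Equiv.Perm (Fin 6)) (w : Fin 6) (f : Sym2 (Fin 6)) :
    (pin w f).map (Sym2.map σ) = pin (σ w) (Sym2.map σ f) := by
  induction f with
  | _ a b => simp [pin_mk]

theorem move_conj {σ : Equiv.Perm (Fin 6)} (h : σ 0 = 0) {L : Multiset P}
    (hM : Move (L.map (conj σ))) : Move L := by
  have h' := symm_zero h
  obtain ⟨a, w, ha, hw, R, hR, hmv⟩ := hM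
  have ne0 : ∀ x : Fin 6, x ≠ 0 → σ.symm x ≠ 0 := by
    intro x hx h2
    rw [Equiv.symm_apply_eq, h] at h2
    exact hx h2
  refine ⟨σ.symm a, σ.symm w, ne0 a ha, ne0 w hw, R.map (Sym2.map σ.symm), ?_, ?_⟩
  · have := congrArg (Multiset.map (Sym2.map σ.symm)) hR
    rw [tot_conj h, map_symm_map, Multiset.map_add, Multiset.map_singleton, Sym2.map_mk] at this
    rw [this, h']
  · intro f hf hwf
    rw [Multiset.mem_map] at hf
    obtain ⟨f0, hf0, rfl⟩ := hf
    obtain ⟨L', hL', hcard, htot⟩ := hmv f0 hf0 (by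
      intro h2
      exact hwf (Sym2.mem_map.2 ⟨w, h2, rfl⟩))
    refine ⟨L'.map (conj σ.symm), sps_conj h' hL', ?_, ?_⟩
    · rw [Multiset.card_map, hcard, Multiset.card_map]
    · have := congrArg (Multiset.map (Sym2.map σ.symm)) htot
      rw [Multiset.map_add, Multiset.map_add, Multiset.map_add, tot_conj h, map_symm_map,
        Multiset.map_singleton, Multiset.map_singleton, Sym2.map_mk, pin_map, h',
        ← tot_conj h'] at this
      exact this

theorem move_exists {L : Multiset P} (hL : ∀ p ∈ L, Sp p) (hmin : Min L) (hex : exs L ≠ 0) :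
    Move L := by
  have h1 : ∃ p ∈ L, ex p ≠ 0 := by
    by_contra hcon
    push Not at hcon
    apply hex
    rw [exs, Multiset.sum_eq_zero_iff]
    intro x hx
    rw [Multiset.mem_map] at hx
    obtain ⟨p, hp, rfl⟩ := hx
    exact hcon p hp
  obtain ⟨p, hp, hpex⟩ := h1
  obtain ⟨t, ht, rfl⟩ := complete (hL p hp)
  have hs := allB_spec sigB_all t ht
  rw [sigB, Bool.or_eq_true, Nat.beq_eq, look_div (by omega)] at hs
  have hs := hs.resolve_left hpex
  simp only [Bool.and_eq_true, decide_eq_true_eq] at hs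
  obtain ⟨⟨hinj, h0⟩, hc⟩ := hs
  have hbij : Function.Bijective (sg t) := Finite.injective_iff_bijective.1 (fun i j => hinj i j)
  let σ : Equiv.Perm (Fin 6) := Equiv.ofBijective (sg t) hbij
  have hσ : ∀ i, σ i = sg t i := fun _ => rfl
  have hσ0 : σ 0 = 0 := h0
  apply move_conj hσ0
  apply rt_ok t _ (sps_conj hσ0 hL) (min_conj hσ0 hmin)
  have : ofI [rt t] = {par (rt t)} := rfl
  rw [this, Multiset.singleton_le, Multiset.mem_map]
  refine ⟨par t, hp, ?_⟩
  funext i
  change σ (par t (σ.symm i)) = _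
  rw [hσ, hc, ← hσ, Equiv.apply_symm_apply]

end Pool.Agent.Hag.Six
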